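import Pool.Agent.LPR.Stmts

/-!
# LPR, row RE1: slots which are used at the same point are equal
-/

set_option autoImplicit false

namespace Pool.Agent.LPR.H76

open Pool.Agent.LSG Pool.Agent.LPR

lemma pw (m : ℕ) : 0 < (1 / 2 : ℝ) ^ m := pow_pos (by norm_num) m

lemma core {S : Type} [TopologicalSpace S] {O : Set (S × unitInterval)}
    {ρ : C(S × unitInterval, ℝ)} {χ : ℕ → ℕ → C(S × unitInterval, ℝ)} (hP : Parti O ρ χ)
    (s : S) (t u : unitInterval) (m k : ℕ) (hx : χ m k (s, u) ≠ 0)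
    (ht : |(t : ℝ) - sg m k| < (1 / 2 : ℝ) ^ (m + 12)) :
    |(t : ℝ) - u| < (1 / 2 : ℝ) ^ (m + 2) ∧ (1 / 2 : ℝ) ^ (m + 2) < ρ (s, t) ∧
      ρ (s, t) < 4 * (1 / 2 : ℝ) ^ m := by
  obtain ⟨_, h1, h2, h3⟩ := hP.supp m k (s, u) hx
  have h3' : |(u : ℝ) - sg m k| < (1 / 2 : ℝ) ^ (m + 3) := h3
  have h4 := hP.lip s t u
  have hp := pw m
  have e1 : (1 / 2 : ℝ) ^ (m + 12) = (1 / 2 : ℝ) ^ m / 4096 := by rw [pow_add]; norm_num; ring
  have e2 : (1 / 2 : ℝ) ^ (m + 3) = (1 / 2 : ℝ) ^ m / 8 := by rw [pow_add]; norm_num; ring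
  have e3 : (1 / 2 : ℝ) ^ (m + 2) = (1 / 2 : ℝ) ^ m / 4 := by rw [pow_add]; norm_num; ring
  have e4 : (1 / 2 : ℝ) ^ (m + 1) = (1 / 2 : ℝ) ^ m / 2 := by rw [pow_add]; norm_num; ring
  rw [e1] at ht
  rw [e2] at h3'
  rw [e4] at h1
  rw [e3]
  have h5 : |(t : ℝ) - u| ≤ |(t : ℝ) - sg m k| + |(u : ℝ) - sg m k| := by
    have := abs_sub_le (t : ℝ) (sg m k) (u : ℝ)
    rwa [abs_sub_comm (sg m k) (u : ℝ)] at this
  have h6 := abs_le.mp h4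
  refine ⟨?_, ?_, ?_⟩ <;> linarith [h6.1, h6.2]

lemma cmp {m m' : ℕ} {r : ℝ} (h1 : (1 / 2 : ℝ) ^ (m + 2) < r) (h2 : r < 4 * (1 / 2 : ℝ) ^ m') :
    m' ≤ m + 4 := by
  by_contra hc
  push Not at hc
  have h3 : (1 / 2 : ℝ) ^ m' ≤ (1 / 2 : ℝ) ^ (m + 4) :=
    pow_le_pow_of_le_one (by norm_num) (by norm_num) hc.le
  have e3 : (1 / 2 : ℝ) ^ (m + 2) = (1 / 2 : ℝ) ^ m / 4 := by rw [pow_add]; norm_num; ring
  have e4 : (1 / 2 : ℝ) ^ (m + 4) = (1 / 2 : ℝ) ^ m / 16 := by rw [pow_add]; norm_num; ring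
  rw [e3] at h1
  rw [e4] at h3
  linarith

lemma nearSg {a b : ℕ → ℕ → ℕ → ℝ} {w : ℕ → ℕ → ℕ → C(ℝ, ℝ)} (hS : Slots a b w)
    {m k n : ℕ} {t : ℝ} (h : w m k n t ≠ 0) :
    sg m k < t ∧ |t - sg m k| < (1 / 2 : ℝ) ^ (m + 12) := by
  obtain ⟨h1, h2⟩ := hS.supp m k n t h
  have h3 : (1 / 2 : ℝ) ^ (m + 12) / ((n : ℝ) + 1) ≤ (1 / 2 : ℝ) ^ (m + 12) :=
    div_le_self (pw _).le (by linarith [Nat.cast_nonneg (α := ℝ) n])
  refine ⟨h1, ?_⟩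
  rw [abs_of_pos (by linarith)]
  linarith

lemma sg01 {m k : ℕ} (hk : k < 2 ^ (m + 4)) : sg m k ∈ unitInterval := by
  unfold sg
  have h1 : (0 : ℝ) < 2 ^ (m + 5) := by positivity
  constructor
  · positivity
  · rw [div_le_one h1]
    have h2 : 2 * k + 1 ≤ 2 ^ (m + 5) := by
      have : 2 ^ (m + 5) = 2 * 2 ^ (m + 4) := by rw [pow_succ]; ring
      omega
    exact_mod_cast h2

/-- Row RE1. -/
theorem re1 : Re1Stmt := by
  intro S _ O ρ χ a b w hP hS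
  refine ⟨?_, ?_, ?_⟩
  · intro s t u u' m k n m' k' n' hw hx hw' hx'
    obtain ⟨_, h1⟩ := nearSg hS hw
    obtain ⟨_, h1'⟩ := nearSg hS hw'
    obtain ⟨_, h2, h3⟩ := core hP s t u m k hx h1
    obtain ⟨_, h2', h3'⟩ := core hP s t u' m' k' hx' h1'
    have hne : (m, k) = (m', k') := by
      by_contra hc
      have h4 := hS.sep m k m' k' hc (cmp h2' h3) (cmp h2 h3')
      have h5 := abs_sub_le (sg m k) (t : ℝ) (sg m' k')
      rw [abs_sub_comm (sg m k) (t : ℝ)] at h5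
      linarith
    obtain ⟨rfl, rfl⟩ := Prod.mk.inj hne
    exact ⟨rfl, rfl, hS.inj m k n n' t hw hw'⟩
  · intro s u u' m k m' k' n' hx hw' hx'
    obtain ⟨hlt, h1'⟩ := nearSg hS hw'
    have hk := (hP.supp m k (s, u) hx).1
    have h1 : |(((⟨sg m k, sg01 hk⟩ : unitInterval) : ℝ)) - sg m k| < (1 / 2 : ℝ) ^ (m + 12) := by
      simp only [sub_self, abs_zero]
      exact pw _
    obtain ⟨_, h2, h3⟩ := core hP s ⟨sg m k, sg01 hk⟩ u m k hx h1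
    obtain ⟨_, h2', h3'⟩ := core hP s ⟨sg m k, sg01 hk⟩ u' m' k' hx' h1'
    have hc : (m, k) ≠ (m', k') := by
      intro hc
      obtain ⟨rfl, rfl⟩ := Prod.mk.inj hc
      exact lt_irrefl _ hlt
    have h4 := hS.sep m k m' k' hc (cmp h2' h3) (cmp h2 h3')
    have := pw (m + 12)
    linarith
  · intro s t u m k n hw hx
    exact core hP s t u m k hx (nearSg hS hw).2

end Pool.Agent.LPR.H76
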